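import Mathlib

/-!
Rule 30: periodicity of columns of the space-time diagram of a row with a leftmost black cell,
and runs of the center column of the single cell seed.
-/

set_option autoImplicit false

namespace Pool.Agent.H21R30

/-- One step of Rule 30. -/
def step (c : ℤ → Bool) : ℤ → Bool := fun i => Bool.xor (c (i - 1)) (c i || c (i + 1))

/-- `cell c t i` is the cell at position `i` at time `t`, started from the row `c`. -/
def cell (c : ℤ → Bool) (t : ℕ) (i : ℤ) : Bool := (step^[t] c) i

/-- The row with a single black cell at position `0`. -/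
def single : ℤ → Bool := fun i => decide (i = 0)

/-- The center column of Rule 30 started from a single black cell. -/
def center (t : ℕ) : Bool := cell single t 0

/-- The sequence `a` is eventually periodic. -/
def EvPeriodic (a : ℕ → Bool) : Prop := ∃ p N : ℕ, 0 < p ∧ ∀ t, N ≤ t → a (t + p) = a t

theorem cell_zero (c : ℤ → Bool) (i : ℤ) : cell c 0 i = c i := rfl

theorem cell_succ (c : ℤ → Bool) (t : ℕ) (i : ℤ) :
    cell c (t + 1) i = Bool.xor (cell c t (i - 1)) (cell c t i || cell c t (i + 1)) := by
  unfold cell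
  rw [Function.iterate_succ_apply']
  rfl

/-- Sideways evolution. -/
theorem cell_left (c : ℤ → Bool) (t : ℕ) (i : ℤ) :
    cell c t (i - 1) = Bool.xor (cell c (t + 1) i) (cell c t i || cell c t (i + 1)) := by
  rw [cell_succ]
  generalize cell c t (i - 1) = x
  generalize (cell c t i || cell c t (i + 1)) = y
  cases x <;> cases y <;> rfl

theorem light (c : ℤ → Bool) (l : ℤ) (h0 : ∀ i, i < l → c i = false) (h1 : c l = true) (t : ℕ) :
    (∀ i : ℤ, i < l - t → cell c t i = false) ∧ cell c t (l - t) = true := by
  induction t with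
  | zero =>
    refine ⟨fun i hi => ?_, ?_⟩
    · rw [cell_zero]; exact h0 i (by simpa using hi)
    · rw [cell_zero]; simpa using h1
  | succ t ih =>
    refine ⟨fun i hi => ?_, ?_⟩
    · push_cast at hi
      rw [cell_succ, ih.1 (i - 1) (by linarith), ih.1 i (by linarith), ih.1 (i + 1) (by linarith)]
      rfl
    · push_cast
      rw [cell_succ, ih.1 (l - (t + 1) - 1) (by linarith), ih.1 (l - (t + 1)) (by linarith)]
      have e : l - ((t : ℤ) + 1) + 1 = l - t := by ring
      rw [e, ih.2]
      rfl

/-- Sideways propagation of a period of two adjacent columns. -/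
theorem sideways (c : ℤ → Bool) (i : ℤ) (T p M : ℕ)
    (h : ∀ t, T ≤ t → t < M → cell c (t + p) i = cell c t i ∧
      cell c (t + p) (i + 1) = cell c t (i + 1)) (n : ℕ) :
    ∀ t, T ≤ t → t + n < M → cell c (t + p) (i - n) = cell c t (i - n) ∧
      cell c (t + p) (i - n + 1) = cell c t (i - n + 1) := by
  induction n with
  | zero =>
    intro t h1 h2
    simpa using h t h1 (by simpa using h2)
  | succ n ih =>
    intro t h1 h2
    have a := ih t h1 (by omega)
    have b := ih (t + 1) (by omega) (by omega)
    have e : i - ((n + 1 : ℕ) : ℤ) = (i - n) - 1 := by push_cast; ring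
    have e2 : (i - (n : ℤ)) - 1 + 1 = i - n := by ring
    rw [e, e2]
    refine ⟨?_, a.1⟩
    rw [cell_left, cell_left, a.1, a.2]
    have e3 : t + p + 1 = t + 1 + p := by omega
    rw [e3, b.1]

/-- Two adjacent columns are not both `p`-periodic on a long window. -/
theorem adjacent (c : ℤ → Bool) (l : ℤ) (h0 : ∀ i, i < l → c i = false) (h1 : c l = true)
    (i : ℤ) (T p M : ℕ) (hp : 0 < p) (hn : 0 ≤ i - l + T + p)
    (h : ∀ t, T ≤ t → t < M → cell c (t + p) i = cell c t i ∧
      cell c (t + p) (i + 1) = cell c t (i + 1)) :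
    (M : ℤ) ≤ i - l + 2 * T + p := by
  by_contra hcon
  push Not at hcon
  obtain ⟨n, hn'⟩ := Int.eq_ofNat_of_zero_le hn
  have hM : T + n < M := by
    have : ((T + n : ℕ) : ℤ) < M := by push_cast; linarith
    exact_mod_cast this
  have a := (sideways c i T p M h n T le_rfl hM).1
  have e : i - (n : ℤ) = l - ((T + p : ℕ) : ℤ) := by push_cast; linarith
  rw [e, (light c l h0 h1 (T + p)).2] at a
  rw [(light c l h0 h1 T).1 _ (by push_cast; linarith [show (0 : ℤ) < p by exact_mod_cast hp])] at a
  exact absurd a (by decide)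

theorem multi (c : ℤ → Bool) (i : ℤ) (T p M : ℕ) (hp : 0 < p)
    (h : ∀ t, T ≤ t → t < M → cell c (t + p) i = cell c t i) (m : ℕ) :
    ∀ u, T ≤ u → u + m * p ≤ M → cell c (u + m * p) i = cell c u i := by
  induction m with
  | zero => intro u _ _; simp
  | succ m ih =>
    intro u h1 h2
    have e : u + (m + 1) * p = (u + m * p) + p := by ring
    rw [e] at h2 ⊢
    rw [h (u + m * p) (by omega) (by omega), ih u h1 (by omega)]

/-- The strip between two `p`-periodic columns is periodic. -/
theorem strip (c : ℤ → Bool) (i : ℤ) (w T p M : ℕ) (hp : 0 < p)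
    (h : ∀ t, T ≤ t → t < M → cell c (t + p) i = cell c t i ∧
      cell c (t + p) (i + w) = cell c t (i + w)) :
    ∃ a b : ℕ, a < b ∧ b ≤ 2 ^ w ∧ ∀ s, T + b * p + s ≤ M → ∀ k : ℕ, k ≤ w →
      cell c (T + b * p + s) (i + k) = cell c (T + a * p + s) (i + k) := by
  classical
  obtain ⟨x, y, hxy, he⟩ := Fintype.exists_ne_map_eq_of_card_lt
    (fun (a : Fin (2 ^ w + 1)) => fun (k : Fin w) => cell c (T + (a : ℕ) * p) (i + ((k : ℕ) : ℤ)))
    (by simp)
  have key : ∀ x y : Fin (2 ^ w + 1), (x : ℕ) < y →
      (fun (k : Fin w) => cell c (T + (x : ℕ) * p) (i + ((k : ℕ) : ℤ))) =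
      (fun (k : Fin w) => cell c (T + (y : ℕ) * p) (i + ((k : ℕ) : ℤ))) →
      ∃ a b : ℕ, a < b ∧ b ≤ 2 ^ w ∧ ∀ s, T + b * p + s ≤ M → ∀ k : ℕ, k ≤ w →
      cell c (T + b * p + s) (i + k) = cell c (T + a * p + s) (i + k) := by
    intro x y hlt he
    obtain ⟨a, ha⟩ := x
    obtain ⟨b, hb⟩ := y
    simp only at hlt he
    refine ⟨a, b, hlt, by omega, ?_⟩
    obtain ⟨d, rfl⟩ := Nat.exists_eq_add_of_lt hlt
    have e0 : ∀ s, T + (a + d + 1) * p + s = (T + a * p + s) + (d + 1) * p := by
      intro s; ring
    intro s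
    induction s with
    | zero =>
      intro hs k hk
      rcases Nat.lt_or_ge k w with hk' | hk'
      · have := congrFun he ⟨k, hk'⟩
        simpa using this.symm
      · have : k = w := le_antisymm hk hk'
        subst this
        rw [e0 0] at hs ⊢
        exact multi c (i + k) T p M hp (fun t h1 h2 => (h t h1 h2).2) (d + 1) _ (by
          have : 0 ≤ a * p := Nat.zero_le _
          omega) hs
    | succ s ih =>
      intro hs k hk
      have ih' := ih (by omega)
      rcases Nat.eq_zero_or_pos k with hk0 | hk0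
      · subst hk0
        rw [e0 (s + 1)] at hs ⊢
        have := multi c i T p M hp (fun t h1 h2 => (h t h1 h2).1) (d + 1)
          (T + a * p + (s + 1)) (by
          have : 0 ≤ a * p := Nat.zero_le _
          omega) hs
        simpa using this
      · rcases Nat.lt_or_ge k w with hk' | hk'
        · have e1 : T + (a + d + 1) * p + (s + 1) = (T + (a + d + 1) * p + s) + 1 := by ring
          have e2 : T + a * p + (s + 1) = (T + a * p + s) + 1 := by ring
          rw [e1, e2, cell_succ, cell_succ]
          obtain ⟨k', rfl⟩ : ∃ k', k = k' + 1 := ⟨k - 1, by omega⟩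
          have f1 : i + ((k' + 1 : ℕ) : ℤ) - 1 = i + (k' : ℕ) := by push_cast; ring
          have f2 : i + ((k' + 1 : ℕ) : ℤ) + 1 = i + ((k' + 2 : ℕ) : ℤ) := by push_cast; ring
          rw [f1, f2, ih' k' (by omega), ih' (k' + 1) (by omega), ih' (k' + 2) (by omega)]
        · have : k = w := le_antisymm hk hk'
          subst this
          rw [e0 (s + 1)] at hs ⊢
          exact multi c (i + k) T p M hp (fun t h1 h2 => (h t h1 h2).2) (d + 1) _ (by
            have : 0 ≤ a * p := Nat.zero_le _
            omega) hs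
  rcases lt_or_gt_of_ne (fun hh : (x : ℕ) = y => hxy (Fin.ext hh)) with hlt | hlt
  · exact key x y hlt he
  · exact key y x hlt he.symm

/-- Two columns are not both `p`-periodic on a long window. -/
theorem pair (c : ℤ → Bool) (l : ℤ) (h0 : ∀ i, i < l → c i = false) (h1 : c l = true)
    (i : ℤ) (w : ℕ) (hw : 1 ≤ w) (T p M : ℕ) (hp : 0 < p)
    (h : ∀ t, T ≤ t → t < M → cell c (t + p) i = cell c t i ∧
      cell c (t + p) (i + w) = cell c t (i + w)) :
    M ≤ 2 * T + 2 ^ (w + 1) * p + 3 * (i - l).natAbs := by
  set N : ℕ := (i - l).natAbs with hN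
  have hNi : -(N : ℤ) ≤ i - l ∧ i - l ≤ N := by
    constructor <;> omega
  obtain ⟨a, b, hab, hb, hs⟩ := strip c i w (T + N) p M hp
    (fun t g1 g2 => h t (by omega) g2)
  have hbp : b * p ≤ 2 ^ w * p := Nat.mul_le_mul_right p hb
  have h2 : 2 ^ (w + 1) * p = 2 * (2 ^ w * p) := by ring
  by_contra hcon
  push Not at hcon
  have hap : a * p + p ≤ b * p := by
    have : (a + 1) * p ≤ b * p := Nat.mul_le_mul_right p hab
    linarith [this, add_mul a 1 p]
  obtain ⟨P, hP⟩ : ∃ P, b * p = a * p + P := ⟨b * p - a * p, by omega⟩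
  have hP0 : 0 < P := by omega
  have := adjacent c l h0 h1 i (T + N + a * p) P (M + 1 - P) hP0 (by
      push_cast; nlinarith [hNi.1, Int.natCast_nonneg T, Int.natCast_nonneg P,
        (by positivity : (0 : ℤ) ≤ (a : ℤ) * p)]) (by
    intro t g1 g2
    obtain ⟨s, rfl⟩ := Nat.exists_eq_add_of_le g1
    have q := hs s (by omega)
    have e1 : T + N + a * p + s + P = T + N + b * p + s := by omega
    have q0 := q 0 (by omega)
    have q1 := q 1 hw
    rw [e1]
    exact ⟨by simpa using q0, by simpa using q1⟩)
  have hM : ((M + 1 - P : ℕ) : ℤ) = M + 1 - P := by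
    rw [Nat.cast_sub (by omega)]; push_cast; ring
  rw [hM] at this
  have hZ : (M : ℤ) + 1 ≤ i - l + 2 * (T + N) + 2 * ((a : ℤ) * p + P) := by
    push_cast at this
    linarith
  have hZ2 : ((b * p : ℕ) : ℤ) = (a : ℤ) * p + P := by
    rw [hP]; push_cast; ring
  rw [← hZ2] at hZ
  have : ((M + 1 : ℕ) : ℤ) ≤ ((2 * T + 2 ^ (w + 1) * p + 3 * N : ℕ) : ℤ) := by
    rw [h2]
    have c1 : ((b * p : ℕ) : ℤ) ≤ ((2 ^ w * p : ℕ) : ℤ) := by exact_mod_cast hbp
    push_cast at c1 hZ ⊢
    linarith [hNi.2]
  have : M + 1 ≤ 2 * T + 2 ^ (w + 1) * p + 3 * N := by exact_mod_cast this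
  omega

theorem window (c : ℤ → Bool) (l : ℤ) (h0 : ∀ i, i < l → c i = false) (h1 : c l = true)
    (i : ℤ) (w : ℕ) (hw : 1 ≤ w) (T p : ℕ) (hp : 0 < p) :
    ∃ t, T ≤ t ∧ t ≤ 2 * T + 2 ^ (w + 1) * p + 3 * (i - l).natAbs ∧
      (cell c (t + p) i ≠ cell c t i ∨ cell c (t + p) (i + w) ≠ cell c t (i + w)) := by
  by_contra hcon
  push Not at hcon
  have := pair c l h0 h1 i w hw T p (2 * T + 2 ^ (w + 1) * p + 3 * (i - l).natAbs + 1) hp
    (fun t g1 g2 => hcon t g1 (by omega))
  omega

theorem ev_of_two (c : ℤ → Bool) (l : ℤ) (h0 : ∀ i, i < l → c i = false) (h1 : c l = true)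
    (i j : ℤ) (hij : i < j) (hi : EvPeriodic (fun t => cell c t i))
    (hj : EvPeriodic (fun t => cell c t j)) : False := by
  obtain ⟨p, N, hp, h⟩ := hi
  obtain ⟨p', N', hp', h'⟩ := hj
  obtain ⟨w, hw⟩ := Int.eq_ofNat_of_zero_le (sub_nonneg.2 hij.le)
  have hw1 : 1 ≤ w := by
    have : (0 : ℤ) < w := by rw [← hw]; linarith
    omega
  have hj' : j = i + w := by linarith
  subst hj'
  have per : ∀ (q : ℕ) (a : ℕ → Bool) (K : ℕ), (∀ t, K ≤ t → a (t + q) = a t) →
      ∀ m t, K ≤ t → a (t + m * q) = a t := by
    intro q a K ha m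
    induction m with
    | zero => intro t _; simp
    | succ m ih =>
      intro t ht
      have e : t + (m + 1) * q = (t + m * q) + q := by ring
      rw [e, ha _ (by have := Nat.zero_le (m * q); omega), ih t ht]
  obtain ⟨t, g1, _, g3⟩ := window c l h0 h1 i w hw1 (max N N') (p' * p) (Nat.mul_pos hp' hp)
  rcases g3 with g3 | g3
  · exact g3 (per p (fun t => cell c t i) N h p' t (le_trans (le_max_left _ _) g1))
  · apply g3
    rw [mul_comm p' p]
    exact per p' (fun t => cell c t (i + w)) N' h' p t (le_trans (le_max_right _ _) g1)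

/-- Opposite constant values of two adjacent columns propagate to the left. -/
theorem alt (c : ℤ → Bool) (j : ℤ) (T M : ℕ) (u : Bool)
    (h : ∀ t, T ≤ t → t < M → cell c t j = u ∧ cell c t (j + 1) = !u) (n : ℕ) :
    ∀ t, T ≤ t → t + n < M → cell c t (j - n) = Bool.xor u (decide (n % 2 = 1)) ∧
      cell c t (j - n + 1) = !(Bool.xor u (decide (n % 2 = 1))) := by
  induction n with
  | zero =>
    intro t h1 h2
    simpa using h t h1 (by simpa using h2)
  | succ n ih =>
    intro t h1 h2
    have a := ih t h1 (by omega)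
    have b := ih (t + 1) (by omega) (by omega)
    have e : j - ((n + 1 : ℕ) : ℤ) = (j - n) - 1 := by push_cast; ring
    have e2 : (j - (n : ℤ)) - 1 + 1 = j - n := by ring
    rw [e, e2]
    rcases Nat.mod_two_eq_zero_or_one n with hn | hn
    · have hn' : (n + 1) % 2 = 1 := by omega
      rw [cell_left, a.1, a.2, b.1, hn, hn']
      cases u <;> decide
    · have hn' : (n + 1) % 2 = 0 := by omega
      rw [cell_left, a.1, a.2, b.1, hn, hn']
      cases u <;> decide

/-- Two adjacent white columns propagate to the left. -/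
theorem white (c : ℤ → Bool) (j : ℤ) (T M : ℕ)
    (h : ∀ t, T ≤ t → t < M → cell c t j = false ∧ cell c t (j + 1) = false) (n : ℕ) :
    ∀ t, T ≤ t → t + n < M → cell c t (j - n) = false ∧ cell c t (j - n + 1) = false := by
  induction n with
  | zero =>
    intro t h1 h2
    simpa using h t h1 (by simpa using h2)
  | succ n ih =>
    intro t h1 h2
    have a := ih t h1 (by omega)
    have b := ih (t + 1) (by omega) (by omega)
    have e : j - ((n + 1 : ℕ) : ℤ) = (j - n) - 1 := by push_cast; ring
    have e2 : (j - (n : ℤ)) - 1 + 1 = j - n := by ring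
    rw [e, e2]
    refine ⟨?_, a.1⟩
    rw [cell_left, a.1, a.2, b.1]
    rfl

theorem single_light (t : ℕ) : (∀ i : ℤ, i < -t → cell single t i = false) ∧
    cell single t (-t) = true := by
  have := light single 0 (fun i hi => by simp [single, hi.ne]) (by simp [single]) t
  simpa using this

theorem single_second (t : ℕ) (ht : 1 ≤ t) : cell single t (-t + 1) = true := by
  obtain ⟨s, rfl⟩ := Nat.exists_eq_add_of_le ht
  rw [add_comm 1 s, cell_succ]
  have e1 : -((s + 1 : ℕ) : ℤ) + 1 - 1 = -(s : ℤ) - 1 := by push_cast; ring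
  have e2 : -((s + 1 : ℕ) : ℤ) + 1 = -(s : ℤ) := by push_cast; ring
  rw [e1, e2, (single_light s).1 _ (by linarith), (single_light s).2]
  rfl

/-- A run of ones of the center column which starts at time `T ≥ 1` has length at most `T`. -/
theorem ones (T K : ℕ) (hT : 1 ≤ T) (h : ∀ t, T ≤ t → t < T + K → center t = true) : K ≤ T := by
  by_contra hK
  push Not at hK
  have hc : ∀ t, T ≤ t → t < T + K - 1 → cell single t (-1) = false ∧
      cell single t (-1 + 1) = !false := by
    intro t g1 g2
    have a := h t g1 (by omega)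
    have b := h (t + 1) (by omega) (by omega)
    unfold center at a b
    refine ⟨?_, by simpa using a⟩
    have := cell_left single t 0
    rw [a, b] at this
    simpa using this
  rcases Nat.lt_or_ge T 2 with h2 | h2
  · have hT1 : T = 1 := by omega
    subst hT1
    have a := (hc 1 le_rfl (by omega)).1
    have b := (single_light 1).2
    have e : (-((1 : ℕ) : ℤ)) = -1 := by norm_num
    rw [e, a] at b
    exact absurd b (by decide)
  · have a := (alt single (-1) T (T + K - 1) false hc (T - 1) T le_rfl (by omega)).1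
    have b := (alt single (-1) T (T + K - 1) false hc (T - 2) T le_rfl (by omega)).1
    have e1 : (-1 : ℤ) - ((T - 1 : ℕ) : ℤ) = -(T : ℤ) := by
      rw [Nat.cast_sub (by omega)]; push_cast; ring
    have e2 : (-1 : ℤ) - ((T - 2 : ℕ) : ℤ) = -(T : ℤ) + 1 := by
      rw [Nat.cast_sub h2]; push_cast; ring
    rw [e1, (single_light T).2] at a
    rw [e2, single_second T hT] at b
    rcases Nat.mod_two_eq_zero_or_one T with hm | hm
    · have m2 : (T - 2) % 2 = 0 := by omega
      rw [m2] at b
      exact absurd b (by decide)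
    · have m1 : (T - 1) % 2 = 0 := by omega
      rw [m1] at a
      exact absurd a (by decide)

/-- A run of zeros of the center column which starts at time `T ≥ 1` has length at most
`3 T - 2`. -/
theorem zeros (T K : ℕ) (hT : 1 ≤ T) (h : ∀ t, T ≤ t → t < T + K → center t = false) :
    K ≤ 3 * T - 2 := by
  by_contra hK
  push Not at hK
  have hK1 : 1 ≤ K := by omega
  -- the right neighbour is monotone on the run
  have hr : ∀ t, T ≤ t → t < T + K → cell single t 1 = true → cell single (t + 1) 1 = true := by
    intro t g1 g2 g3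
    have a := h t g1 g2
    unfold center at a
    have b := cell_succ single t 1
    have e : (1 : ℤ) - 1 = 0 := by norm_num
    rw [e, a, g3] at b
    simpa using b
  -- the left neighbour equals the right neighbour on the run
  have hl : ∀ t, T ≤ t → t < T + K - 1 → cell single t (-1) = cell single t 1 := by
    intro t g1 g2
    have a := h t g1 (by omega)
    have b := h (t + 1) (by omega) (by omega)
    unfold center at a b
    have := cell_left single t 0
    rw [a, b] at this
    simpa using this
  -- first time at which the right neighbour is black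
  obtain ⟨T1, g1, g2, g3, g4⟩ : ∃ T1, T ≤ T1 ∧ T1 ≤ T + K - 1 ∧
      (∀ t, T ≤ t → t < T1 → cell single t 1 = false) ∧
      (∀ t, T1 ≤ t → t < T + K - 1 → cell single t 1 = true) := by
    by_cases hex : ∃ d, d < K - 1 ∧ cell single (T + d) 1 = true
    · classical
      have hd := Nat.find_spec hex
      have hm := fun d (hd' : d < Nat.find hex) => Nat.find_min hex hd'
      refine ⟨T + Nat.find hex, by omega, by omega, ?_, ?_⟩
      · intro t q1 q2
        obtain ⟨d, rfl⟩ := Nat.exists_eq_add_of_le q1
        have := hm d (by omega)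
        rw [not_and] at this
        simpa using this (by omega)
      · have aux : ∀ d, T + Nat.find hex + d < T + K - 1 →
            cell single (T + Nat.find hex + d) 1 = true := by
          intro d
          induction d with
          | zero => intro _; simpa using hd.2
          | succ d ih =>
            intro q
            exact hr (T + Nat.find hex + d) (by omega) (by omega) (ih (by omega))
        intro t q1 q2
        obtain ⟨d, rfl⟩ := Nat.exists_eq_add_of_le q1
        exact aux d q2
    · rw [not_exists] at hex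
      refine ⟨T + K - 1, by omega, le_rfl, ?_, fun t q1 q2 => by omega⟩
      intro t q1 q2
      obtain ⟨d, rfl⟩ := Nat.exists_eq_add_of_le q1
      have := hex d
      rw [not_and] at this
      simpa using this (by omega)
  -- first part: white columns
  have hT1 : T1 ≤ 2 * T - 1 := by
    by_contra hc
    push Not at hc
    have a := (white single (-1) T T1 (fun t q1 q2 => ⟨by
        rw [hl t q1 (by omega)]; exact g3 t q1 q2, by
        have := h t q1 (by omega)
        unfold center at this
        simpa using this⟩) (T - 1) T le_rfl (by omega)).1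
    have e1 : (-1 : ℤ) - ((T - 1 : ℕ) : ℤ) = -(T : ℤ) := by
      rw [Nat.cast_sub (by omega)]; push_cast; ring
    rw [e1, (single_light T).2] at a
    exact absurd a (by decide)
  -- the case `T = 1`
  rcases Nat.lt_or_ge T 2 with h2 | h2
  · have hT' : T = 1 := by omega
    subst hT'
    have := h 1 le_rfl (by omega)
    revert this
    decide
  -- second part: alternating pattern
  have hc : ∀ t, T1 ≤ t → t < T + K - 1 → cell single t (-1) = true ∧
      cell single t (-1 + 1) = !true := by
    intro t q1 q2
    refine ⟨by rw [hl t (by omega) q2]; exact g4 t q1 q2, ?_⟩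
    have := h t (by omega) (by omega)
    unfold center at this
    simpa using this
  have a := (alt single (-1) T1 (T + K - 1) true hc (T1 - 1) T1 le_rfl (by omega)).1
  have b := (alt single (-1) T1 (T + K - 1) true hc (T1 - 2) T1 le_rfl (by omega)).1
  have e1 : (-1 : ℤ) - ((T1 - 1 : ℕ) : ℤ) = -(T1 : ℤ) := by
    rw [Nat.cast_sub (by omega)]; push_cast; ring
  have e2 : (-1 : ℤ) - ((T1 - 2 : ℕ) : ℤ) = -(T1 : ℤ) + 1 := by
    rw [Nat.cast_sub (by omega)]; push_cast; ring
  rw [e1, (single_light T1).2] at a
  rw [e2, single_second T1 (by omega)] at b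
  rcases Nat.mod_two_eq_zero_or_one T1 with hm | hm
  · have m1 : (T1 - 1) % 2 = 1 := by omega
    rw [m1] at a
    exact absurd a (by decide)
  · have m2 : (T1 - 2) % 2 = 1 := by omega
    rw [m2] at b
    exact absurd b (by decide)

end Pool.Agent.H21R30
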